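import Mathlib
import Pool.Agent.H6Delta

set_option autoImplicit false

open Set Cardinal Ordinal

namespace Pool.Agent.Results.MP_807794_lc.StatAntichain

/-- The height of a node: its rank in the well-founded order of the tree. -/
noncomputable def ht {T : Type} [PartialOrder T] [WellFoundedLT T] (t : T) : Ordinal.{0} :=
  IsWellFounded.rank (· < ·) t

/-- A ladder system on all countable limit ordinals. -/
def IsLadder (C : Ordinal.{0} → Set Ordinal.{0}) : Prop :=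
  ∀ α < ω₁, Order.IsSuccLimit α → C α ⊆ Iio α ∧ (∀ β < α, ∃ ξ ∈ C α, β < ξ) ∧
    ∀ β < α, (C α ∩ Iio β).Finite

/-- A nonempty, downward closed, pruned subset of the tree. -/
def IsSubtree {T : Type} [PartialOrder T] [WellFoundedLT T] (S : Set T) : Prop :=
  S.Nonempty ∧ IsLowerSet S ∧ ∀ s ∈ S, ∀ β < ω₁, ∃ t ∈ S, s ≤ t ∧ β ≤ ht t

/-- The monochromatic colouring with colour `g α` on the ladder `C α` has a `T`-uniformization. -/
def Uniformizes (T : Type) [PartialOrder T] [WellFoundedLT T]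
    (C : Ordinal.{0} → Set Ordinal.{0}) (g : Ordinal.{0} → ℕ) : Prop :=
  ∃ (S : Set T) (φ : T → ℕ), IsSubtree S ∧ ∀ s ∈ S, Order.IsSuccLimit (ht s) →
    {ξ ∈ C (ht s) | ∃ u < s, ht u = ξ ∧ φ u ≠ g (ht s)}.Finite

/-- Closed unbounded in `ω₁`. -/
def IsClub (K : Set Ordinal.{0}) : Prop :=
  (∀ β < ω₁, ∃ γ ∈ K, β < γ ∧ γ < ω₁) ∧
    ∀ δ < ω₁, δ ≠ 0 → (∀ β < δ, ∃ γ ∈ K, β < γ ∧ γ < δ) → δ ∈ K

theorem pred {T : Type} [PartialOrder T] [WellFoundedLT T] (s : T) :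
    ∀ ξ < ht s, ∃ u < s, ht u = ξ := by
  induction s using WellFoundedLT.induction with
  | ind s ih =>
  intro ξ hξ
  unfold ht at hξ
  rw [IsWellFounded.rank_eq, Ordinal.lt_iSup_iff] at hξ
  obtain ⟨⟨b, hb⟩, h⟩ := hξ
  rcases (Order.lt_succ_iff.1 h).lt_or_eq with h | h
  · obtain ⟨u, hu, e⟩ := ih b hb ξ h
    exact ⟨u, hu.trans hb, e⟩
  · exact ⟨b, hb, h.symm⟩

theorem ht_lt {T : Type} [PartialOrder T] [WellFoundedLT T] {u s : T} (h : u < s) :
    ht u < ht s := IsWellFounded.rank_lt_of_rel h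

theorem result (hCH : (2 : Cardinal.{0}) ^ ℵ₀ = ℵ₁ ∨ (2 : Cardinal.{0}) ^ ℵ₀ < 2 ^ ℵ₁)
    (T : Type) [PartialOrder T] [WellFoundedLT T]
    (_htree : ∀ t : T, IsChain (· ≤ ·) (Iio t))
    (hht : ∀ t : T, ht t < ω₁) (hlev : ∀ α, {t : T | ht t = α}.Countable)
    (C : Ordinal.{0} → Set Ordinal.{0}) (hC : IsLadder C)
    (hu : ∀ g : Ordinal.{0} → ℕ, (∀ α, g α < 2) → Uniformizes T C g) :
    ∃ A : Set T, IsAntichain (· ≤ ·) A ∧ ∀ K, IsClub K → ∃ a ∈ A, ht a ∈ K := by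
  classical
  have h2 : (2 : Cardinal.{0}) ^ ℵ₀ < 2 ^ ℵ₁ := by
    rcases hCH with h | h
    · rw [h]; exact cantor _
    · exact h
  by_contra hno
  let L := (ω₁ : Ordinal.{0}).ToType
  let e : Iio (ω₁ : Ordinal.{0}) ≃o L := Ordinal.ToType.mk
  let v : L → Ordinal.{0} := fun a => (e.symm a).1
  have hv : ∀ a, v a < ω₁ := fun a => (e.symm a).2
  have hvlt : ∀ a b, v a < v b ↔ a < b := fun a b =>
    (Subtype.coe_lt_coe).trans e.symm.lt_iff_lt
  have hve : ∀ α (h : α < ω₁), v (e ⟨α, h⟩) = α := fun α h => by simp [v]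
  have hL : #L = ℵ₁ := by simp [L]
  have hcount : ∀ a : L, (Iio a).Countable := by
    intro a
    rw [countable_iff_lt_aleph_one, ← hL]
    exact mk_Iio_lt a (by simp [L])
  let g : (L → Bool) → Ordinal.{0} → ℕ := fun z α =>
    if h : α < ω₁ then (if z (e ⟨α, h⟩) then 1 else 0) else 0
  have hg : ∀ z α, g z α < 2 := by
    intro z α; simp only [g]; split_ifs <;> norm_num
  have hgv : ∀ z z' a, g z (v a) = g z' (v a) → z a = z' a := by
    intro z z' a h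
    have : e ⟨v a, hv a⟩ = a := by simp [v]
    simp only [g, dif_pos (hv a), this] at h
    cases h1 : z a <;> cases h2 : z' a <;> simp_all
  choose S φ hS hφ using fun z => hu (g z) (hg z)
  have hK : ∀ z, ∃ K, IsClub K ∧ ∀ t : T, ht t ∈ K → (∀ u < t, u ∈ S z) → t ∈ S z := by
    intro z
    by_contra hh
    refine hno ⟨{t | t ∉ S z ∧ ∀ u < t, u ∈ S z}, ?_, fun K hK => ?_⟩
    · intro a ha b hb hab hle
      exact ha.1 (hb.2 a (lt_of_le_of_ne hle hab))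
    · by_contra h3
      exact hh ⟨K, hK, fun t htK hu => by_contra fun h4 => h3 ⟨t, ⟨h4, hu⟩, htK⟩⟩
  choose K hK hKS using hK
  have hω : Order.IsSuccLimit (ω₁ : Ordinal.{0}) := Cardinal.isSuccLimit_omega 1
  have hnx : ∀ z (b : L), ∃ c : L, v c ∈ K z ∧ Order.succ (v b) < v c := by
    intro z b
    obtain ⟨γ, h1, h2, h3⟩ := (hK z).1 _ (hω.succ_lt (hv b))
    exact ⟨e ⟨γ, h3⟩, by rwa [hve], by rwa [hve]⟩
  choose nx hnxK hnxlt using hnx
  have h1ω : (1 : Ordinal.{0}) < ω₁ := by simpa using hω.succ_lt hω.bot_lt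
  have hen : ∀ c : L, ∃ f : ℕ → L, ∀ a < c, a ∈ range f := by
    intro c
    obtain ⟨f, hf⟩ := ((hcount c).insert c).exists_eq_range (insert_nonempty _ _)
    exact ⟨f, fun a ha => hf ▸ mem_insert_of_mem _ ha⟩
  choose en hen using hen
  have hι : ∃ ι : T → ℕ, ∀ s t, ht s = ht t → ι s = ι t → s = t := by
    choose f hf using fun α => Set.countable_iff_exists_injOn.1 (hlev α)
    exact ⟨fun t => f (ht t) t, fun s t h1 h2 => hf (ht t) h1 rfl (by simpa [h1] using h2)⟩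
  obtain ⟨ι, hι⟩ := hι
  let D : (L → Bool) → L → L × (ℕ → Bool) × Set (ℕ × ℕ) := fun z b =>
    (nx z b, fun n => z (en (nx z b) n), {p | ∃ t ∈ S z, ht t = v b ∧ p = (ι t, φ z t)})
  have hA : #(L × (ℕ → Bool) × Set (ℕ × ℕ)) ≤ 2 ^ ℵ₀ := by
    have : #(L × (ℕ → Bool) × Set (ℕ × ℕ)) = ℵ₁ * (𝔠 * 𝔠) := by simp [hL]
    rw [this, continuum_mul_self, two_power_aleph0]
    exact (mul_le_mul_left aleph_one_le_continuum _).trans continuum_mul_self.le
  have key := H6Delta.DS (L := L) le_rfl hA (e ⟨1, h1ω⟩)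
    (le_aleph0_iff_set_countable.2 (hcount _)) D ?_
  · rw [hL] at key; exact absurd h2 (not_lt.2 key)
  intro z z' d hd hD
  have hnxe : ∀ b < d, nx z b = nx z' b := fun b hb => congrArg Prod.fst (hD b hb)
  by_cases hc : ∃ b < d, d < nx z b
  · obtain ⟨b, hb, hlt⟩ := hc
    obtain ⟨n, hn⟩ := hen _ d hlt
    have := congrFun (congrArg (fun p => p.2.1) (hD b hb)) n
    simp only [D] at this
    rw [← hnxe b hb, hn] at this
    exact this
  push Not at hc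
  have hd0 : v d ≠ 0 := by
    have : ¬ v d < v (e ⟨1, h1ω⟩) := fun h => not_lt.2 hd ((hvlt _ _).1 h)
    rw [hve] at this
    intro h; rw [h] at this; exact this zero_lt_one
  have hb : ∀ β < v d, ∃ b < d, v b = β := fun β hβ =>
    ⟨e ⟨β, hβ.trans (hv d)⟩, by rw [← hvlt, hve]; exact hβ, hve _ _⟩
  have hle : ∀ b < d, v (nx z b) ≤ v d := fun b h => not_lt.1 fun h' =>
    not_lt.2 (hc b h) ((hvlt _ _).1 h')
  have hlim : Order.IsSuccLimit (v d) := by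
    refine (Order.isSuccLimit_iff _).2 ⟨by simpa using hd0, Order.isSuccPrelimit_of_succ_lt ?_⟩
    intro β hβ
    obtain ⟨b, h1, rfl⟩ := hb β hβ
    exact (hnxlt z b).trans_le (hle b h1)
  have hdK : ∀ w, (∀ b < d, nx z b = nx w b) → v d ∈ K w := by
    intro w hw
    by_contra hn
    refine hn ((hK w).2 _ (hv d) hd0 fun β hβ => ?_)
    obtain ⟨b, h1, rfl⟩ := hb β hβ
    refine ⟨v (nx w b), hnxK w b, (Order.lt_succ _).trans (hnxlt w b), ?_⟩
    refine lt_of_le_of_ne (hw b h1 ▸ hle b h1) fun h => hn (h ▸ hnxK w b)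
  obtain ⟨s, hs, hsd⟩ : ∃ s ∈ S z, ht s = v d := by
    obtain ⟨s0, hs0⟩ := (hS z).1
    obtain ⟨t, ht1, -, ht2⟩ := (hS z).2.2 s0 hs0 _ (hv d)
    rcases ht2.lt_or_eq with h | h
    · obtain ⟨u, hu, e⟩ := pred t _ h
      exact ⟨u, (hS z).2.1 hu.le ht1, e⟩
    · exact ⟨t, ht1, h.symm⟩
  have htr : ∀ u < s, u ∈ S z' ∧ φ z u = φ z' u := by
    intro u hu
    obtain ⟨b, h1, h2⟩ := hb (ht u) (hsd ▸ ht_lt hu)
    have h3 := congrArg (fun p => p.2.2) (hD b h1)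
    simp only [D] at h3
    have h4 : (ι u, φ z u) ∈ {p | ∃ t ∈ S z, ht t = v b ∧ p = (ι t, φ z t)} :=
      ⟨u, (hS z).2.1 hu.le hs, h2.symm, rfl⟩
    rw [h3] at h4
    obtain ⟨t, h5, h6, h7⟩ := h4
    obtain ⟨h8, h9⟩ := Prod.mk.inj h7
    obtain rfl := hι u t (h2.symm.trans h6.symm) h8
    exact ⟨h5, h9⟩
  have hs' : s ∈ S z' := hKS z' s (hsd ▸ hdK z' hnxe) fun u hu => (htr u hu).1
  have f1 := hφ z s hs (hsd ▸ hlim)
  have f2 := hφ z' s hs' (hsd ▸ hlim)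
  rw [hsd] at f1 f2
  obtain ⟨c1, c2, -⟩ := hC _ (hv d) hlim
  have hinf : (C (v d)).Infinite := by
    intro hfin
    obtain ⟨ξ0, h0, -⟩ := c2 0 (pos_iff_ne_zero.2 hd0)
    obtain ⟨m, hm, hmax⟩ := hfin.exists_maximal ⟨ξ0, h0⟩
    obtain ⟨ξ, h1, h2⟩ := c2 m (c1 hm)
    exact not_le.2 h2 (hmax h1 h2.le)
  obtain ⟨ξ, hξ, hn⟩ := hinf.exists_notMem_finite (f1.union f2)
  obtain ⟨u, hu, hue⟩ := pred s ξ (hsd ▸ c1 hξ)
  rw [mem_union, not_or] at hn
  have e1 : φ z u = g z (v d) := by_contra fun h => hn.1 ⟨hξ, u, hu, hue, h⟩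
  have e2 : φ z' u = g z' (v d) := by_contra fun h => hn.2 ⟨hξ, u, hu, hue, h⟩
  exact hgv z z' d (e1.symm.trans ((htr u hu).2.trans e2))

end Pool.Agent.Results.MP_807794_lc.StatAntichain
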